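import Mathlib

/-!
# The graphical cycle polynomial of a chordal graph need not be real-rooted

The gem (a path on four vertices and a vertex joined to all of them) is chordal, and its graphical cycle
polynomial is `x^5 + 7 x^4 + 13 x^3 + 8 x^2 + 2 x`, which has two non-real roots.
-/

set_option autoImplicit false

namespace Pool.Agent.Results.MP_efc620_co.GemNotRealRooted

open Polynomial

/-- The number of cycles of the permutation `σ`, fixed points included: the number of classes of the
relation `v` and `w` lie in the same cycle of `σ`. -/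
noncomputable def numCycles {V : Type} (σ : Equiv.Perm V) : ℕ :=
  Nat.card (Quotient (Equiv.Perm.SameCycle.setoid σ))

open Classical in
/-- The graphical cycle polynomial `𝒞(G, x)`: the sum of `x ^ (number of cycles of σ)` over the
permutations `σ` of the vertices such that `v` and `σ v` are adjacent whenever `σ v ≠ v`. -/
noncomputable def cyclePoly {V : Type} [Fintype V] (G : SimpleGraph V) : ℤ[X] :=
  ∑ σ ∈ Finset.univ.filter (fun σ : Equiv.Perm V => ∀ v, σ v ≠ v → G.Adj v (σ v)),
    X ^ numCycles σ

/-- `G` is chordal: every cycle `f 0, f 1, ..., f k` of length `k + 1 ≥ 4` has a chord, an edge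
joining two vertices `f i`, `f j` which are not consecutive on the cycle (`Fin (k + 1)` is the cyclic
group, so `k + 1 = 0` in it). -/
def Chordal {V : Type} (G : SimpleGraph V) : Prop :=
  ∀ k : ℕ, 3 ≤ k → ∀ f : Fin (k + 1) → V, Function.Injective f →
    (∀ i, G.Adj (f i) (f (i + 1))) → ∃ i j, j ≠ i ∧ j ≠ i + 1 ∧ i ≠ j + 1 ∧ G.Adj (f i) (f j)

/-- The adjacency of the gem: `0` is adjacent to `1, 2, 3, 4`, and `1 - 2 - 3 - 4` is a path. -/
def gemAdj (i j : Fin 5) : Bool :=
  (i, j) ∈ ([(0, 1), (0, 2), (0, 3), (0, 4), (1, 2), (2, 3), (3, 4),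
    (1, 0), (2, 0), (3, 0), (4, 0), (2, 1), (3, 2), (4, 3)] : List (Fin 5 × Fin 5))

/-- The gem. -/
def gem : SimpleGraph (Fin 5) where
  Adj i j := gemAdj i j = true
  symm := ⟨by decide⟩
  loopless := ⟨by decide⟩

lemma c4 : ∀ a b c d : Fin 5, a ≠ c → b ≠ d → gemAdj a b → gemAdj b c → gemAdj c d →
    gemAdj d a → gemAdj a c ∨ gemAdj b d := by
  decide +kernel

lemma c5 : ∀ a b c d e : Fin 5, a ≠ c → a ≠ d → b ≠ d → b ≠ e → c ≠ e → gemAdj a b →
    gemAdj b c → gemAdj c d → gemAdj d e → gemAdj e a →
    gemAdj a c ∨ gemAdj a d ∨ gemAdj b d ∨ gemAdj b e ∨ gemAdj c e := by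
  decide +kernel

lemma gem_chordal : Chordal gem := by
  intro k hk f hf hadj
  have hk5 : k + 1 ≤ 5 := by
    have := Fintype.card_le_of_injective f hf
    simpa using this
  have hk4 : k ≤ 4 := by omega
  interval_cases k
  · have h := c4 (f 0) (f 1) (f 2) (f 3) (hf.ne (by decide)) (hf.ne (by decide))
      (hadj 0) (hadj 1) (hadj 2) (hadj 3)
    rcases h with h | h
    · exact ⟨0, 2, by decide, by decide, by decide, h⟩
    · exact ⟨1, 3, by decide, by decide, by decide, h⟩
  · have h := c5 (f 0) (f 1) (f 2) (f 3) (f 4) (hf.ne (by decide)) (hf.ne (by decide))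
      (hf.ne (by decide)) (hf.ne (by decide)) (hf.ne (by decide))
      (hadj 0) (hadj 1) (hadj 2) (hadj 3) (hadj 4)
    rcases h with h | h | h | h | h
    · exact ⟨0, 2, by decide, by decide, by decide, h⟩
    · exact ⟨0, 3, by decide, by decide, by decide, h⟩
    · exact ⟨1, 3, by decide, by decide, by decide, h⟩
    · exact ⟨1, 4, by decide, by decide, by decide, h⟩
    · exact ⟨2, 4, by decide, by decide, by decide, h⟩

/-- The cycle through `v`, for permutations of five elements. -/
def lab (σ : Equiv.Perm (Fin 5)) (v : Fin 5) : Finset (Fin 5) :=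
  {v, σ v, σ (σ v), σ (σ (σ v)), σ (σ (σ (σ v)))}

/-- The number of cycles, for permutations of five elements. -/
def nc (σ : Equiv.Perm (Fin 5)) : ℕ := (Finset.univ.image (lab σ)).card

/-- The permutations along edges of the gem. -/
def good : Finset (Equiv.Perm (Fin 5)) :=
  Finset.univ.filter (fun σ => ∀ v, σ v ≠ v → gemAdj v (σ v) = true)

lemma g0 : good.image nc = {1, 2, 3, 4, 5} := by decide +kernel
lemma g1 : (good.filter (fun σ => nc σ = 1)).card = 2 := by decide +kernel
lemma g2 : (good.filter (fun σ => nc σ = 2)).card = 8 := by decide +kernel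
lemma g3 : (good.filter (fun σ => nc σ = 3)).card = 13 := by decide +kernel
lemma g4 : (good.filter (fun σ => nc σ = 4)).card = 7 := by decide +kernel
lemma g5 : (good.filter (fun σ => nc σ = 5)).card = 1 := by decide +kernel

lemma mem_lab (σ : Equiv.Perm (Fin 5)) (v w : Fin 5) : w ∈ lab σ v ↔ σ.SameCycle v w := by
  constructor
  · intro h
    simp only [lab, Finset.mem_insert, Finset.mem_singleton] at h
    rcases h with h | h | h | h | h
    · exact ⟨0, by simp [h]⟩
    · exact ⟨1, by simp [h]⟩
    · exact ⟨2, by simp [h, zpow_ofNat, pow_succ]⟩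
    · exact ⟨3, by simp [h, zpow_ofNat, pow_succ]⟩
    · exact ⟨4, by simp [h, zpow_ofNat, pow_succ]⟩
  · intro h
    by_cases hv : v = w
    · subst hv; simp [lab]
    have hsup : v ∈ σ.support := by
      rw [Equiv.Perm.mem_support]
      intro hfix
      exact hv (h.eq_of_left hfix)
    obtain ⟨i, hi, hi2⟩ := h.exists_pow_eq_of_mem_support hsup
    have hc : (σ.cycleOf v).support.card ≤ 5 := by
      have := Finset.card_le_univ (σ.cycleOf v).support
      simpa using this
    have hi5 : i < 5 := by omega
    subst hi2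
    interval_cases i <;> simp [lab, pow_succ]

lemma setoid_eq (σ : Equiv.Perm (Fin 5)) :
    Equiv.Perm.SameCycle.setoid σ = Setoid.ker (lab σ) := by
  ext v w
  rw [Setoid.ker_def]
  change σ.SameCycle v w ↔ _
  constructor
  · intro h
    ext u
    rw [mem_lab, mem_lab]
    exact ⟨fun h' => h.symm.trans h', fun h' => h.trans h'⟩
  · intro h
    rw [← mem_lab, h, mem_lab]

lemma numCycles_eq (σ : Equiv.Perm (Fin 5)) : numCycles σ = nc σ := by
  unfold numCycles nc
  rw [setoid_eq, Nat.card_congr (Setoid.quotientKerEquivRange (lab σ)), Nat.card_coe_set_eq,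
    ← Set.ncard_coe_finset]
  congr 1
  ext; simp

lemma poly_gem : cyclePoly gem = X ^ 5 + 7 * X ^ 4 + 13 * X ^ 3 + 8 * X ^ 2 + 2 * X := by
  have h : cyclePoly gem = ∑ σ ∈ good, X ^ nc σ := by
    unfold cyclePoly
    refine Finset.sum_congr ?_ (fun σ _ => by rw [numCycles_eq])
    ext σ
    simp only [Finset.mem_filter, Finset.mem_univ, true_and, good]
    rfl
  rw [h, Finset.sum_comp (fun k => (X : ℤ[X]) ^ k) nc, g0]
  rw [Finset.sum_insert (by decide), Finset.sum_insert (by decide), Finset.sum_insert (by decide),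
    Finset.sum_insert (by decide), Finset.sum_singleton, g1, g2, g3, g4, g5]
  simp only [nsmul_eq_mul]
  push_cast
  ring

/-- There is a chordal graph (with five vertices) whose graphical cycle polynomial has a non-real
root. -/
theorem result : ∃ G : SimpleGraph (Fin 5), Chordal G ∧
    ∃ z : ℂ, z.im ≠ 0 ∧ aeval z (cyclePoly G) = 0 := by
  refine ⟨gem, gem_chordal, ?_⟩
  by_contra hcon
  push Not at hcon
  have hreal : ∀ z : ℂ, z ^ 4 + 7 * z ^ 3 + 13 * z ^ 2 + 8 * z + 2 = 0 → z.im = 0 := by
    intro z hz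
    by_contra him
    refine hcon z him ?_
    rw [poly_gem]
    simp only [map_add, map_mul, map_pow, aeval_X, map_ofNat]
    linear_combination z * hz
  set q : ℂ[X] := X ^ 4 + 7 * X ^ 3 + 13 * X ^ 2 + 8 * X + 2 with hq
  have hdeg : q.natDegree = 4 := by
    rw [hq]; compute_degree!
  have hlead : q.leadingCoeff = 1 := by
    rw [leadingCoeff, hdeg, hq]
    simp [coeff_X]
  have hsp : q.Splits := IsAlgClosed.splits q
  have hcard := hsp.natDegree_eq_card_roots
  rw [hdeg] at hcard
  obtain ⟨a, b, c, d, hr⟩ := Multiset.card_eq_four.1 hcard.symm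
  have hprod := hsp.eq_prod_roots
  rw [hlead, hr] at hprod
  have hev : ∀ z : ℂ, z ^ 4 + 7 * z ^ 3 + 13 * z ^ 2 + 8 * z + 2 =
      (z - a) * (z - b) * (z - c) * (z - d) := by
    intro z
    have := congrArg (fun p => eval z p) hprod
    simp only [hq, eval_add, eval_mul, eval_pow, eval_X, eval_ofNat, map_one, one_mul,
      Multiset.insert_eq_cons, Multiset.map_cons, Multiset.map_singleton, Multiset.prod_cons,
      Multiset.prod_singleton, eval_sub, eval_C] at this
    rw [this]
    ring
  have ha := hreal a (by rw [hev]; ring)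
  have hb := hreal b (by rw [hev]; ring)
  have hc := hreal c (by rw [hev]; ring)
  have hd := hreal d (by rw [hev]; ring)
  have ha' : a = (a.re : ℂ) := Complex.ext rfl (by simp [ha])
  have hb' : b = (b.re : ℂ) := Complex.ext rfl (by simp [hb])
  have hc' : c = (c.re : ℂ) := Complex.ext rfl (by simp [hc])
  have hd' : d = (d.re : ℂ) := Complex.ext rfl (by simp [hd])
  have e4 : a * b * c * d = 2 := by linear_combination -hev 0
  have e2 : a * b + a * c + a * d + b * c + b * d + c * d = 13 := by
    linear_combination -(hev 1) / 2 - (hev (-1)) / 2 - e4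
  have e13 : (a + b + c + d) + (a * b * c + a * b * d + a * c * d + b * c * d) = -15 := by
    linear_combination (hev 1) / 2 - (hev (-1)) / 2
  have e3 : a * b * c + a * b * d + a * c * d + b * c * d = -8 := by
    have h2 := hev 2
    linear_combination (8 / 6 : ℂ) * e13 - (1 / 6 : ℂ) * h2 - (4 / 6 : ℂ) * e2 - (1 / 6 : ℂ) * e4
  rw [ha', hb', hc', hd'] at e4 e2 e3
  norm_cast at e4 e2 e3
  generalize a.re = a at *
  generalize b.re = b at *
  generalize c.re = c at *
  generalize d.re = d at *
  have key : 3 * (a * b * c + a * b * d + a * c * d + b * c * d) ^ 2 -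
      8 * (a * b + a * c + a * d + b * c + b * d + c * d) * (a * b * c * d) =
      ((a - b) * c * d) ^ 2 + ((a - c) * b * d) ^ 2 + ((a - d) * b * c) ^ 2 +
      ((b - c) * a * d) ^ 2 + ((b - d) * a * c) ^ 2 + ((c - d) * a * b) ^ 2 := by ring
  rw [e4, e2, e3] at key
  have : 0 ≤ ((a - b) * c * d) ^ 2 + ((a - c) * b * d) ^ 2 + ((a - d) * b * c) ^ 2 +
      ((b - c) * a * d) ^ 2 + ((b - d) * a * c) ^ 2 + ((c - d) * a * b) ^ 2 := by positivity
  rw [← key] at this
  norm_num at this

end Pool.Agent.Results.MP_efc620_co.GemNotRealRooted
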